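import Mathlib

set_option autoImplicit false

namespace Pool.Agent.Results.MP_bdb63f_co.Counter

open SimpleGraph

/-- an `(s,t)`-triple; the total order on the finite vertex set is given by an injective rank -/
def HasTriple {V : Type} (G : SimpleGraph V) (s t : V) : Prop :=
  ∃ (r : V → ℕ) (I O : SimpleGraph V), Function.Injective r ∧ I ≤ G ∧ O ≤ G ∧ I.IsTree ∧ O.IsTree ∧
    Disjoint I.edgeSet O.edgeSet ∧ (∀ v, v ≠ t → ∃ w, I.Adj v w ∧ r v < r w) ∧
    ∀ v, v ≠ s → ∃ w, O.Adj v w ∧ r w < r v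

abbrev W (L : ℕ) := ZMod 5 × Option (Fin (L + 2) × Fin (L + 2))

def R (L : ℕ) : W L → W L → Prop
  | (i, some a), (i', some b) => i = i' ∧ a.1 = b.1
  | (i, none), (i', some b) => i = i' + 1 ∨ (i = i' ∧ b.2 = 0)
  | _, _ => False

def G (L : ℕ) : SimpleGraph (W L) := fromRel (R L)

variable {L : ℕ}

lemma a1 (i : ZMod 5) (j k k' : Fin (L + 2)) (h : k ≠ k') :
    (G L).Adj (i, some (j, k)) (i, some (j, k')) := by simp [G, R, h]
lemma a2 (i : ZMod 5) (b : Fin (L + 2) × Fin (L + 2)) : (G L).Adj (i, some b) (i + 1, none) := by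
  simp [G, R]
lemma a3 (i : ZMod 5) (j : Fin (L + 2)) : (G L).Adj (i, none) (i, some (j, 0)) := by simp [G, R]

lemma nb1 {i : ZMod 5} {j k : Fin (L + 2)} {w : W L} (h : (G L).Adj (i, some (j, k)) w) :
    (∃ k', w = (i, some (j, k'))) ∨ w = (i + 1, none) ∨ (w = (i, none) ∧ k = 0) := by
  obtain ⟨i', _ | ⟨j', k'⟩⟩ := w <;> simp only [G, R, fromRel_adj, false_or] at h
  · rcases h.2 with e | e
    · exact .inr (.inl (by rw [e]))
    · exact .inr (.inr ⟨by rw [e.1], e.2⟩)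
  · rcases h.2 with e | e
    · exact .inl ⟨k', by rw [e.1, e.2]⟩
    · exact .inl ⟨k', by rw [e.1, e.2]⟩

lemma nb2 {i : ZMod 5} {w : W L} (h : (G L).Adj (i + 1, none) w) :
    (∃ j k, w = (i, some (j, k))) ∨ ∃ j, w = (i + 1, some (j, 0)) := by
  obtain ⟨i', _ | ⟨j', k'⟩⟩ := w <;> simp only [G, R, fromRel_adj, or_false, and_false] at h
  rcases h.2 with e | e
  · exact .inl ⟨j', k', by rw [add_right_cancel e]⟩
  · exact .inr ⟨j', by rw [e.1, e.2]⟩

lemma fan {V : Type} (H : SimpleGraph V) (m : ℕ) (u v : V) (huv : u ≠ v) (f : Fin m → V)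
    (hf : Function.Injective f) (h : ∀ c, (f c = u ∨ H.Adj u (f c)) ∧ H.Adj (f c) v) :
    H.IsEdgeReachable m u v := by
  intro F hF
  by_contra hn
  have : ∀ c, ∃ e ∈ F, e = s(u, f c) ∨ e = s(f c, v) := fun c => by
    by_contra hc
    have n1 : s(u, f c) ∉ F := fun m => hc ⟨_, m, .inl rfl⟩
    have n2 : s(f c, v) ∉ F := fun m => hc ⟨_, m, .inr rfl⟩
    have b := (deleteEdges_adj.2 ⟨(h c).2, n2⟩).reachable
    rcases (h c).1 with e | e
    · exact hn (e ▸ b)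
    · exact hn ((deleteEdges_adj.2 ⟨e, n1⟩).reachable.trans b)
  choose g g1 g2 using this
  have inj : Function.Injective g := fun a b e => hf (by
    have n1 := (h a).2.ne
    have n2 := (h b).2.ne
    rcases g2 a with x | x <;> rcases g2 b with y | y <;> rw [e, y, Sym2.eq_iff] at x <;> grind)
  have := Set.encard_le_encard_of_injOn (s := Set.univ) (t := F) (f := g) (fun c _ => g1 c) inj.injOn
  simp only [Set.encard_univ, ENat.card_eq_coe_fintype_card, Fintype.card_fin] at this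
  exact absurd hF (not_lt.2 this)

lemma ec : (G L).IsEdgeConnected (L + 2) := by
  have s1 : ∀ i : ZMod 5, (G L).IsEdgeReachable (L + 2) (i, none) (i + 1, none) := fun i =>
    fan _ _ _ _ (by simp; decide) (fun j => (i, some (j, 0))) (fun a b e => by simpa using e)
      fun c => ⟨.inr (a3 i c), a2 i _⟩
  have s2 : ∀ i : ZMod 5, (G L).IsEdgeReachable (L + 2) (0, none) (i, none) := by
    have b1 := s1 0
    have b2 := b1.trans (s1 _)
    have b3 := b2.trans (s1 _)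
    have b4 := b3.trans (s1 _)
    intro i
    fin_cases i
    exacts [.rfl, b1, b2, b3, b4]
  have s3 : ∀ v, (G L).IsEdgeReachable (L + 2) (0, none) v := by
    rintro ⟨i, _ | ⟨j, k⟩⟩
    · exact s2 i
    · refine (s2 (i + 1)).trans (fan _ _ _ _ (by simp) (fun c => (i, some (j, c)))
        (fun a b e => by simpa using e) fun c => ⟨?_, a2 i _⟩).symm
      exact (eq_or_ne c k).imp (fun e => by rw [e]) fun e => a1 i j k c e.symm
  exact fun u v => (s3 u).symm.trans (s3 v)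

lemma two (z : W L) : ((G L).induce {z}ᶜ).Connected := by
  let Q : W L → W L → Prop := fun a b => ∀ (ha : a ≠ z) (hb : b ≠ z),
    ((G L).induce {z}ᶜ).Reachable ⟨a, ha⟩ ⟨b, hb⟩
  have q1 : ∀ a b, (G L).Adj a b → Q a b := fun a b h ha hb =>
    Adj.reachable (G := (G L).induce {z}ᶜ) (u := ⟨a, ha⟩) (v := ⟨b, hb⟩) h
  have q2 : ∀ a b c, b ≠ z → Q a b → Q b c → Q a c := fun a b c h x y ha hc => (x ha h).trans (y h hc)
  have s1 : ∀ i : ZMod 5, Q (i, none) (i + 1, none) := fun i => by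
    by_cases h : (i, some (0, 0)) = z
    · exact q2 _ (i, some (1, 0)) _ (by rw [← h]; simp) (q1 _ _ (a3 i 1)) (q1 _ _ (a2 i _))
    · exact q2 _ _ _ h (q1 _ _ (a3 i 0)) (q1 _ _ (a2 i _))
  have nz : ∀ d : ZMod 5, d ≠ 0 → ((z.1 + d, none) : W L) ≠ z := fun d h e => h (by
    simpa using congrArg Prod.fst e)
  have s2 : ∀ i : ZMod 5, Q (i, none) (z.1 + 4, none) := by
    have b3 : Q (z.1 + 3, none) (z.1 + 4, none) := by
      have := s1 (z.1 + 3); rwa [add_assoc] at this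
    have b2 : Q (z.1 + 2, none) (z.1 + 4, none) :=
      q2 _ _ _ (nz 3 (by decide)) (by have := s1 (z.1 + 2); rwa [add_assoc] at this) b3
    have b1 : Q (z.1 + 1, none) (z.1 + 4, none) :=
      q2 _ _ _ (nz 2 (by decide)) (by have := s1 (z.1 + 1); rwa [add_assoc] at this) b2
    have b0 : Q (z.1 + 0, none) (z.1 + 4, none) :=
      q2 _ _ _ (nz 1 (by decide)) (by have := s1 (z.1 + 0); rwa [add_assoc] at this) b1
    intro i
    obtain ⟨d, rfl⟩ : ∃ d, i = z.1 + d := ⟨i - z.1, by ring⟩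
    fin_cases d
    exacts [b0, b1, b2, b3, fun _ _ => .refl _]
  have s3 : ∀ v, Q v (z.1 + 4, none) := by
    rintro ⟨i, _ | ⟨j, k⟩⟩
    · exact s2 i
    by_cases h : (i + 1, none) = z
    · have b : Q (i, some (j, 0)) (z.1 + 4, none) :=
        q2 _ _ _ (by rw [← h]; simp; decide) (q1 _ _ (a3 i j).symm) (s2 i)
      by_cases e : k = 0
      · exact e ▸ b
      · exact q2 _ _ _ (by rw [← h]; simp) (q1 _ _ (a1 i j k 0 e)) b
    · exact q2 _ _ _ h (q1 _ _ (a2 i _)) (s2 _)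
  have : Nonempty ({z}ᶜ : Set (W L)) := ⟨⟨_, nz 4 (by decide)⟩⟩
  exact ⟨fun a b => (s3 a a.2 (nz 4 (by decide))).trans (s3 b b.2 (nz 4 (by decide))).symm⟩

lemma none_ (s t : W L) : ¬ HasTriple (G L) s t := by
  rintro ⟨r, I, O, -, hI, hO, -, -, hd, up, dn⟩
  obtain ⟨i, i1, i2, i3, i4⟩ := (by decide : ∀ a b : ZMod 5, ∃ i, i ≠ a ∧ i + 1 ≠ a ∧ i ≠ b ∧ i + 1 ≠ b)
    s.1 t.1
  have dj : ∀ a b, I.Adj a b → O.Adj a b → False := fun a b x y =>
    Set.disjoint_left.1 hd (show s(a, b) ∈ I.edgeSet from x) y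
  have top : ∀ g j, g ≠ t.1 → ∃ k, (∀ k', r (g, some (j, k')) ≤ r (g, some (j, k))) ∧
      (r (g, some (j, k)) < r (g + 1, none) ∨ (k = 0 ∧ r (g, some (j, k)) < r (g, none) ∧
        I.Adj (g, some (j, k)) (g, none))) := fun g j h => by
    obtain ⟨k, hk⟩ := Finite.exists_max fun k => r (g, some (j, k))
    obtain ⟨w, w1, w2⟩ := up (g, some (j, k)) fun e => h (congrArg Prod.fst e)
    refine ⟨k, hk, ?_⟩
    rcases nb1 (hI w1) with ⟨k', rfl⟩ | rfl | ⟨rfl, e⟩
    · exact absurd (hk k') (not_le.2 w2)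
    · exact .inl w2
    · exact .inr ⟨e, w2, w1⟩
  have bot : ∀ g j, g ≠ s.1 → ∃ k, (∀ k', r (g, some (j, k)) ≤ r (g, some (j, k'))) ∧
      (r (g + 1, none) < r (g, some (j, k)) ∨ (k = 0 ∧ r (g, none) < r (g, some (j, k)) ∧
        O.Adj (g, some (j, k)) (g, none))) := fun g j h => by
    obtain ⟨k, hk⟩ := Finite.exists_min fun k => r (g, some (j, k))
    obtain ⟨w, w1, w2⟩ := dn (g, some (j, k)) fun e => h (congrArg Prod.fst e)
    refine ⟨k, hk, ?_⟩
    rcases nb1 (hO w1) with ⟨k', rfl⟩ | rfl | ⟨rfl, e⟩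
    · exact absurd (hk k') (not_le.2 w2)
    · exact .inl w2
    · exact .inr ⟨e, w2, w1⟩
  obtain ⟨u, u1, u2⟩ := up (i + 1, none) fun e => i4 (congrArg Prod.fst e)
  obtain ⟨w, w1, w2⟩ := dn (i + 1, none) fun e => i2 (congrArg Prod.fst e)
  rcases nb2 (hI u1) with ⟨j, k, rfl⟩ | ⟨j, rfl⟩
  · rcases nb2 (hO w1) with ⟨j', k', rfl⟩ | ⟨j', rfl⟩
    · obtain ⟨a, a1, a2⟩ := top i j i3
      obtain ⟨b, b1, b2⟩ := bot i j' i1
      have := a1 k; have := b1 k'
      omega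
    · obtain ⟨a, a1, a2⟩ := top (i + 1) j' i4
      obtain ⟨b, b1, b2⟩ := bot (i + 1) j' i2
      have := a1 b
      rcases a2 with a2 | ⟨rfl, -, a2⟩
      · rcases b2 with b2 | ⟨rfl, b2, -⟩ <;> omega
      · exact dj _ _ a2.symm w1
  · obtain ⟨a, a1, a2⟩ := top (i + 1) j i4
    obtain ⟨b, b1, b2⟩ := bot (i + 1) j i2
    have := a1 b
    rcases b2 with b2 | ⟨rfl, -, b2⟩
    · rcases a2 with a2 | ⟨rfl, a2, -⟩ <;> omega
    · exact dj _ _ u1 b2.symm

theorem result (L : ℕ) : ∃ (V : Type) (_ : Fintype V) (G : SimpleGraph V), 3 ≤ Fintype.card V ∧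
    G.Connected ∧ (∀ z, (G.induce {z}ᶜ).Connected) ∧ G.IsEdgeConnected L ∧
    ∀ s t, ¬ HasTriple G s t :=
  ⟨W L, inferInstance, G L, by simp; omega, ec.connected (by omega), two,
    fun u v => (ec u v).anti (by omega), none_⟩

end Pool.Agent.Results.MP_bdb63f_co.Counter
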